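import Pool.Agent.Lib.FE80.DownStep

set_option autoImplicit false

open Matrix MeasureTheory Filter Topology
open scoped ComplexOrder

namespace Pool.FE80

/-- The normalised log-volume. -/
noncomputable def L (n : ℕ) (τ : List (Fin n) → ℂ) (R : ℝ) (m : ℕ) (ε : ℝ) (k : ℕ) : EReal :=
  ((((k : ℝ) ^ 2)⁻¹ : ℝ) : EReal) * ENNReal.log (volume (Gam n τ R m ε k))
    + ((((n : ℝ) / 2) * Real.log (k : ℝ) : ℝ) : EReal)

/-- The error term. -/
noncomputable def phi (n : ℕ) (R t : ℝ) : ℝ :=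
  2 * n * R ^ 2 * (1 - t) + n / 2 * (1 - t ^ 2) * Real.log Real.pi - n / 2 * t ^ 2 * Real.log t

theorem L_le {n : ℕ} {τ : List (Fin n) → ℂ} {R ε ε' T C : ℝ} {m N k : ℕ} (hN : 0 < N)
    (h : N ≤ k) (hR : 0 < R) (hC : 1 ≤ C) (hRC : R ≤ C) (hε : 0 < ε)
    (hT : ∀ w : List (Fin n), w.length ≤ m → ‖τ w‖ ≤ T)
    (hc : (m : ℝ) * C ^ m * (Real.sqrt (2 * ((k - N : ℕ) : ℝ) * R ^ 2) * Real.sqrt k) / N +
      ((k : ℝ) / N - 1) * (T + ε) ≤ ε' - ε) :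
    L n τ R m ε k ≤ ((((N : ℝ) / k) ^ 2 : ℝ) : EReal) * L n τ R m ε' N +
      ((phi n R ((N : ℝ) / k) : ℝ) : EReal) := by
  have hk : 0 < k := hN.trans_le h
  have hN' : (0 : ℝ) < N := by exact_mod_cast hN
  have hk' : (0 : ℝ) < k := by exact_mod_cast hk
  have h1 := vol_down hN h hR hC hRC hε hT hc
  have h2 := ENNReal.log_monotone h1
  have hpos : 0 < Real.exp (k * (n * (2 * ((k - N : ℕ) : ℝ) * R ^ 2))) *
        Real.sqrt (Real.pi / k) ^ (n * (k ^ 2 - N ^ 2)) := by positivity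
  rw [ENNReal.log_mul_add, ENNReal.log_ofReal_of_pos hpos] at h2
  unfold L
  have h3 : (0 : EReal) ≤ ((((k : ℝ) ^ 2)⁻¹ : ℝ) : EReal) := by
    have : (0 : ℝ) ≤ ((k : ℝ) ^ 2)⁻¹ := by positivity
    exact_mod_cast this
  have h4 := mul_le_mul_of_nonneg_left h2 h3
  rw [EReal.left_distrib_of_nonneg_of_ne_top h3 (EReal.coe_ne_top _)] at h4
  refine (add_le_add_left h4 _).trans (le_of_eq ?_)
  have h5 : (0 : EReal) ≤ ((((N : ℝ) / k) ^ 2 : ℝ) : EReal) := by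
    have : (0 : ℝ) ≤ ((N : ℝ) / k) ^ 2 := by positivity
    exact_mod_cast this
  have e1 : ((N : ℝ) / k) ^ 2 * ((N : ℝ) ^ 2)⁻¹ = ((k : ℝ) ^ 2)⁻¹ := by field_simp
  have e0 : ∀ v : EReal, ((((N : ℝ) / k) ^ 2 : ℝ) : EReal) * (((((N : ℝ) ^ 2)⁻¹ : ℝ) : EReal) * v) =
      ((((k : ℝ) ^ 2)⁻¹ : ℝ) : EReal) * v := by
    intro v
    rw [← mul_assoc, ← EReal.coe_mul, e1]
  rw [EReal.left_distrib_of_nonneg_of_ne_top h5 (EReal.coe_ne_top _), e0,
    ← EReal.coe_mul, ← EReal.coe_mul, add_assoc, add_assoc, ← EReal.coe_add, ← EReal.coe_add]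
  congr 2
  have hsq : Real.log (Real.sqrt (Real.pi / k)) = (Real.log Real.pi - Real.log k) / 2 := by
    rw [Real.log_sqrt (by positivity), Real.log_div Real.pi_pos.ne' hk'.ne']
  rw [Real.log_mul (Real.exp_pos _).ne' (by positivity), Real.log_exp, Real.log_pow, hsq]
  unfold phi
  rw [Real.log_div hN'.ne' hk'.ne']
  have hle : N ^ 2 ≤ k ^ 2 := Nat.pow_le_pow_left h 2
  push_cast [Nat.cast_sub h, Nat.cast_sub hle]
  field_simp
  ring

end Pool.FE80
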