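import Pool.Agent.Lib.FE80.Emb

set_option autoImplicit false

open Matrix MeasureTheory
open scoped ComplexOrder

namespace Pool.FE80

/-- The microstates. -/
def Gam (n : ℕ) (τ : List (Fin n) → ℂ) (R : ℝ) (m : ℕ) (ε : ℝ) (k : ℕ) : Set (X n k) :=
  {x | (∀ j, bd R (Mx (x j))) ∧ ∀ w : List (Fin n), w.length ≤ m →
    ‖((k : ℂ))⁻¹ * Matrix.trace ((w.map fun j => Mx (x j)).prod) - τ w‖ < ε}

theorem F_tr_le {N : ℕ} (D M : Matrix (Fin N) (Fin N) ℂ) :
    ‖trace (D * M)‖ ≤ Real.sqrt (F D) * Real.sqrt (F M) := by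
  have h1 : ‖trace (D * M)‖ ≤ ∑ p : Fin N × Fin N, ‖D p.1 p.2‖ * ‖M p.2 p.1‖ := by
    rw [trace, Fintype.sum_prod_type]
    simp only [diag_apply, mul_apply]
    refine (norm_sum_le _ _).trans (Finset.sum_le_sum fun a _ => ?_)
    refine (norm_sum_le _ _).trans (Finset.sum_le_sum fun b _ => ?_)
    rw [norm_mul]
  refine h1.trans ?_
  have h2 := Finset.sum_mul_sq_le_sq_mul_sq (Finset.univ : Finset (Fin N × Fin N))
    (fun p => ‖D p.1 p.2‖) (fun p => ‖M p.2 p.1‖)
  have h3 : ∑ p : Fin N × Fin N, ‖D p.1 p.2‖ ^ 2 = F D := by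
    unfold F; rw [Fintype.sum_prod_type]
  have h4 : ∑ p : Fin N × Fin N, ‖M p.2 p.1‖ ^ 2 = F M := by
    unfold F; rw [Fintype.sum_prod_type, Finset.sum_comm]
  rw [h3, h4] at h2
  rw [← Real.sqrt_mul (F_nonneg D)]
  exact Real.le_sqrt_of_sq_le h2

theorem telescope {N n : ℕ} {R C d : ℝ} (hR : 0 < R) (hC : 1 ≤ C) (hRC : R ≤ C) (hd : 0 ≤ d)
    (A B : Fin n → Matrix (Fin N) (Fin N) ℂ) (hA : ∀ j, bd R (A j)) (hB : ∀ j, bd R (B j))
    (hD : ∀ j, F (A j - B j) ≤ d ^ 2) (w : List (Fin n)) :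
    ∀ M : Matrix (Fin N) (Fin N) ℂ,
      ‖trace ((w.map A).prod * M) - trace ((w.map B).prod * M)‖ ≤
        w.length * C ^ w.length * (d * Real.sqrt (F M)) := by
  have hC0 : 0 < C := by linarith
  have hmul : ∀ (Y : Matrix (Fin N) (Fin N) ℂ), bd R Y → ∀ M : Matrix (Fin N) (Fin N) ℂ,
      Real.sqrt (F (Y * M)) ≤ C * Real.sqrt (F M) := by
    intro Y hY M
    rw [← Real.sqrt_sq hC0.le, ← Real.sqrt_mul (by positivity)]
    refine Real.sqrt_le_sqrt ((F_mul hR hY M).trans ?_)
    have := F_nonneg M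
    gcongr
  have hprod : ∀ (w : List (Fin n)) (M : Matrix (Fin N) (Fin N) ℂ),
      Real.sqrt (F ((w.map A).prod * M)) ≤ C ^ w.length * Real.sqrt (F M) := by
    intro w
    induction w with
    | nil => intro M; simp
    | cons a w ih =>
      intro M
      rw [List.map_cons, List.prod_cons, Matrix.mul_assoc, List.length_cons, pow_succ']
      calc _ ≤ C * Real.sqrt (F ((w.map A).prod * M)) := hmul _ (hA a) _
        _ ≤ C * (C ^ w.length * Real.sqrt (F M)) := by gcongr; exact ih M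
        _ = _ := by ring
  induction w with
  | nil => intro M; simp
  | cons a w ih =>
    intro M
    rw [List.map_cons, List.prod_cons, List.map_cons, List.prod_cons]
    have e1 : trace (A a * (w.map A).prod * M) - trace (B a * (w.map B).prod * M) =
        trace ((A a - B a) * ((w.map A).prod * M)) +
        (trace ((w.map A).prod * (M * B a)) - trace ((w.map B).prod * (M * B a))) := by
      rw [Matrix.sub_mul, trace_sub]
      have c1 : trace ((w.map A).prod * (M * B a)) = trace (B a * ((w.map A).prod * M)) := by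
        rw [← Matrix.mul_assoc, trace_mul_comm]
      have c2 : trace ((w.map B).prod * (M * B a)) = trace (B a * ((w.map B).prod * M)) := by
        rw [← Matrix.mul_assoc, trace_mul_comm]
      rw [c1, c2, Matrix.mul_assoc, Matrix.mul_assoc]
      ring
    rw [e1]
    refine (norm_add_le _ _).trans ?_
    have hd1 : Real.sqrt (F (A a - B a)) ≤ d := by
      rw [← Real.sqrt_sq hd]; exact Real.sqrt_le_sqrt (hD a)
    have f1 : ‖trace ((A a - B a) * ((w.map A).prod * M))‖ ≤
        d * (C ^ w.length * Real.sqrt (F M)) := by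
      refine (F_tr_le _ _).trans ?_
      exact mul_le_mul hd1 (hprod w M) (Real.sqrt_nonneg _) hd
    have f2 := ih (M * B a)
    have f3 : Real.sqrt (F (M * B a)) ≤ C * Real.sqrt (F M) := by
      rw [← F_conj (M * B a), conjTranspose_mul, (hB a).herm.eq, ← F_conj M]
      exact hmul _ (hB a) _
    have f4 : C ^ w.length ≤ C ^ (w.length + 1) := pow_le_pow_right₀ hC (Nat.le_succ _)
    rw [List.length_cons]
    push_cast
    calc _ ≤ d * (C ^ (w.length + 1) * Real.sqrt (F M)) +
          w.length * C ^ w.length * (d * (C * Real.sqrt (F M))) := by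
            refine add_le_add (f1.trans ?_) (f2.trans ?_)
            · gcongr
            · gcongr
      _ = _ := by ring

theorem Mx_core {N k : ℕ} (h : N ≤ k) (x : Fin k → Fin k → ℝ) :
    Mx (fun a b => x (Fin.castLE h a) (Fin.castLE h b)) = (P h)ᴴ * Mx x * P h := by
  have e : ∀ (M : Matrix (Fin k) (Fin k) ℂ) (i j : Fin N),
      ((P h)ᴴ * M * P h) i j = M (Fin.castLE h i) (Fin.castLE h j) := by
    intro M i j
    simp [mul_apply, conjTranspose_apply, P]
  ext i j
  rw [e]
  unfold Mx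
  simp only [Fin.castLE_inj]
  rfl

theorem corner_bd {N k : ℕ} (h : N ≤ k) {R : ℝ} {A : Matrix (Fin k) (Fin k) ℂ}
    (hA : bd R A) : bd R ((P h)ᴴ * A * P h) := by
  constructor
  · have := hA.1.conjTranspose_mul_mul_same (P h)
    convert this using 1
    rw [Matrix.mul_sub, Matrix.sub_mul, Matrix.mul_smul, Matrix.smul_mul, Matrix.mul_one, PP]
  · have := hA.2.conjTranspose_mul_mul_same (P h)
    convert this using 1
    rw [Matrix.mul_add, Matrix.add_mul, Matrix.mul_smul, Matrix.smul_mul, Matrix.mul_one, PP]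

theorem col_le {k : ℕ} {R : ℝ} (hR : 0 < R) {A : Matrix (Fin k) (Fin k) ℂ} (hA : bd R A)
    (b : Fin k) : ∑ a, ‖A a b‖ ^ 2 ≤ R ^ 2 := by
  have h1 := (sq_psd hR hA).diag_nonneg (i := b)
  rw [Matrix.sub_apply, Matrix.smul_apply, one_apply_eq, mul_apply] at h1
  have h2 : ∑ j, A b j * A j b = ((∑ a, ‖A a b‖ ^ 2 : ℝ) : ℂ) := by
    push_cast
    refine Finset.sum_congr rfl fun a _ => ?_
    rw [← hA.herm.apply b a, RCLike.star_def, RCLike.conj_mul]
    norm_cast
  rw [h2, smul_eq_mul, mul_one, ← Complex.ofReal_sub] at h1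
  have h3 : (0 : ℝ) ≤ R ^ 2 - ∑ a, ‖A a b‖ ^ 2 := by exact_mod_cast h1
  linarith

theorem row_le {k : ℕ} {R : ℝ} (hR : 0 < R) {A : Matrix (Fin k) (Fin k) ℂ} (hA : bd R A)
    (a : Fin k) : ∑ b, ‖A a b‖ ^ 2 ≤ R ^ 2 := by
  refine le_trans (le_of_eq ?_) (col_le hR hA a)
  refine Finset.sum_congr rfl fun b _ => ?_
  rw [← hA.herm.apply a b, norm_star]

/-- The part of the matrix outside the core. -/
theorem outside_le {N k : ℕ} (h : N ≤ k) {R : ℝ} (hR : 0 < R) {A : Matrix (Fin k) (Fin k) ℂ}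
    (hA : bd R A) :
    ∑ a, ∑ b, (if a.1 < N ∧ b.1 < N then 0 else ‖A a b‖ ^ 2) ≤ 2 * ((k - N : ℕ) : ℝ) * R ^ 2 := by
  have e1 : ∀ a b : Fin k, (if a.1 < N ∧ b.1 < N then (0 : ℝ) else ‖A a b‖ ^ 2) ≤
      (if a.1 < N then 0 else ‖A a b‖ ^ 2) + (if b.1 < N then 0 else ‖A a b‖ ^ 2) := by
    intro a b
    have := sq_nonneg ‖A a b‖
    split_ifs <;> simp_all
  have hcard : (Finset.univ.filter fun a : Fin k => ¬ a.1 < N).card = k - N := by
    have h1 : (Finset.univ.filter fun a : Fin k => a.1 < N).card = N := by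
      have : (Finset.univ.filter fun a : Fin k => a.1 < N) =
          Finset.univ.map (Fin.castLEEmb h) := by
        ext a
        simp only [Finset.mem_filter, Finset.mem_univ, true_and, Finset.mem_map]
        constructor
        · intro ha; exact ⟨⟨a.1, ha⟩, rfl⟩
        · rintro ⟨b, rfl⟩; exact b.2
      rw [this, Finset.card_map, Finset.card_univ, Fintype.card_fin]
    have h2 := Finset.card_filter_add_card_filter_not (s := (Finset.univ : Finset (Fin k)))
      (fun a : Fin k => a.1 < N)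
    rw [h1, Finset.card_univ, Fintype.card_fin] at h2
    omega
  calc _ ≤ ∑ a : Fin k, ∑ b : Fin k, ((if a.1 < N then 0 else ‖A a b‖ ^ 2) +
        (if b.1 < N then 0 else ‖A a b‖ ^ 2)) :=
        Finset.sum_le_sum fun a _ => Finset.sum_le_sum fun b _ => e1 a b
    _ = ∑ a : Fin k, (if a.1 < N then 0 else ∑ b, ‖A a b‖ ^ 2) +
        ∑ b : Fin k, (if b.1 < N then 0 else ∑ a, ‖A a b‖ ^ 2) := by
        simp only [Finset.sum_add_distrib]
        congr 1
        · refine Finset.sum_congr rfl fun a _ => ?_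
          split_ifs <;> simp
        · rw [Finset.sum_comm]
          refine Finset.sum_congr rfl fun b _ => ?_
          split_ifs <;> simp
    _ ≤ ∑ a : Fin k, (if a.1 < N then 0 else R ^ 2) + ∑ b : Fin k, (if b.1 < N then 0 else R ^ 2) := by
        refine add_le_add (Finset.sum_le_sum fun a _ => ?_) (Finset.sum_le_sum fun b _ => ?_)
        · split_ifs
          · exact le_rfl
          · exact row_le hR hA a
        · split_ifs
          · exact le_rfl
          · exact col_le hR hA b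
    _ = _ := by
        have : ∑ a : Fin k, (if a.1 < N then (0 : ℝ) else R ^ 2) = ((k - N : ℕ) : ℝ) * R ^ 2 := by
          rw [← hcard, Finset.sum_ite, Finset.sum_const_zero, zero_add, Finset.sum_const,
            nsmul_eq_mul]
        rw [this]; ring

theorem F_diff {N k : ℕ} (h : N ≤ k) (A : Matrix (Fin k) (Fin k) ℂ) :
    F (A - P h * ((P h)ᴴ * A * P h) * (P h)ᴴ) =
      ∑ a, ∑ b, (if a.1 < N ∧ b.1 < N then 0 else ‖A a b‖ ^ 2) := by
  unfold F
  refine Finset.sum_congr rfl fun a _ => Finset.sum_congr rfl fun b _ => ?_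
  rw [Matrix.sub_apply]
  split_ifs with hab
  · obtain ⟨ha, hb⟩ := hab
    have ea : a = Fin.castLE h ⟨a.1, ha⟩ := by ext; rfl
    have eb : b = Fin.castLE h ⟨b.1, hb⟩ := by ext; rfl
    rw [ea, eb, emb_apply]
    have : ((P h)ᴴ * A * P h) ⟨a.1, ha⟩ ⟨b.1, hb⟩ = A (Fin.castLE h ⟨a.1, ha⟩) (Fin.castLE h ⟨b.1, hb⟩) := by
      simp [mul_apply, conjTranspose_apply, P]
    rw [this, sub_self]; simp
  · rw [emb_out h _ a b hab, sub_zero]

end Pool.FE80
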