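import Pool.Agent.Lib.FE80.Down

set_option autoImplicit false

open Matrix MeasureTheory
open scoped ComplexOrder

namespace Pool.FE80

theorem Mx_sq {k : ℕ} (x : Fin k → Fin k → ℝ) (a b : Fin k) :
    ‖Mx x a b‖ ^ 2 = (x a b ^ 2 + x b a ^ 2) / 2 := by
  have key : ∀ u v : ℝ, ‖((u : ℂ) + (v : ℂ) * Complex.I) / ((Real.sqrt 2 : ℝ) : ℂ)‖ ^ 2 =
      (u ^ 2 + v ^ 2) / 2 := by
    intro u v
    rw [norm_div, div_pow, Complex.norm_real, Real.norm_eq_abs, sq_abs, Real.sq_sqrt (by norm_num),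
      Complex.sq_norm, Complex.normSq_apply]
    simp
    ring
  unfold Mx
  split_ifs with e1 e2
  · subst e1
    rw [Complex.norm_real, Real.norm_eq_abs, sq_abs]; ring
  · exact key _ _
  · have := key (x b a) (- x a b)
    push_cast at this
    rw [neg_mul, ← sub_eq_add_neg] at this
    rw [this]; ring

theorem sumsq {N k : ℕ} (x : Fin k → Fin k → ℝ) :
    ∑ a, ∑ b, (if a.1 < N ∧ b.1 < N then 0 else x a b ^ 2) =
      ∑ a, ∑ b, (if a.1 < N ∧ b.1 < N then 0 else ‖Mx x a b‖ ^ 2) := by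
  have e1 : ∑ a, ∑ b, (if a.1 < N ∧ b.1 < N then 0 else x b a ^ 2) =
      ∑ a, ∑ b, (if a.1 < N ∧ b.1 < N then 0 else x a b ^ 2) := by
    rw [Finset.sum_comm]
    refine Finset.sum_congr rfl fun a _ => Finset.sum_congr rfl fun b _ => ?_
    simp only [and_comm]
  have e2 : ∑ a, ∑ b, (if a.1 < N ∧ b.1 < N then 0 else ‖Mx x a b‖ ^ 2) =
      (∑ a, ∑ b, (if a.1 < N ∧ b.1 < N then 0 else x a b ^ 2) +
        ∑ a, ∑ b, (if a.1 < N ∧ b.1 < N then 0 else x b a ^ 2)) / 2 := by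
    rw [← Finset.sum_add_distrib, Finset.sum_div]
    refine Finset.sum_congr rfl fun a _ => ?_
    rw [← Finset.sum_add_distrib, Finset.sum_div]
    refine Finset.sum_congr rfl fun b _ => ?_
    rw [Mx_sq]
    split_ifs <;> ring
  rw [e2, e1]; ring

theorem vol_ball {C : Type*} [Fintype C] {s : ℝ} (hs : 0 < s) (q : ℝ) :
    volume {y : C → ℝ | ∑ c, y c ^ 2 ≤ q} ≤
      ENNReal.ofReal (Real.exp (s * q) * Real.sqrt (Real.pi / s) ^ Fintype.card C) := by
  classical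
  set S : Set (C → ℝ) := {y | ∑ c, y c ^ 2 ≤ q} with hS
  have hSm : MeasurableSet S := by
    refine measurableSet_le ?_ measurable_const
    fun_prop
  have hint : Integrable (fun y : C → ℝ => ∏ c, Real.exp (-s * y c ^ 2)) :=
    Integrable.fintype_prod (f := fun (_ : C) (t : ℝ) => Real.exp (-s * t ^ 2))
      (fun _ => integrable_exp_neg_mul_sq hs)
  have hval : ∫ y : C → ℝ, ∏ c, Real.exp (-s * y c ^ 2) = Real.sqrt (Real.pi / s) ^ Fintype.card C := by
    have := integral_fintype_prod_volume_eq_pow (ι := C) (fun t : ℝ => Real.exp (-s * t ^ 2))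
    rw [this, integral_gaussian]
  calc volume S = ∫⁻ y, S.indicator 1 y := by rw [lintegral_indicator_one hSm]
    _ ≤ ∫⁻ y : C → ℝ, ENNReal.ofReal (Real.exp (s * q) * ∏ c, Real.exp (-s * y c ^ 2)) := by
        refine lintegral_mono fun y => ?_
        by_cases hy : y ∈ S
        · rw [Set.indicator_of_mem hy, Pi.one_apply, ← ENNReal.ofReal_one]
          refine ENNReal.ofReal_le_ofReal ?_
          rw [← Real.exp_sum, ← Real.exp_add, ← Finset.mul_sum]
          refine Real.one_le_exp ?_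
          have : ∑ c, y c ^ 2 ≤ q := hy
          nlinarith
        · rw [Set.indicator_of_notMem hy]; exact zero_le
    _ = ENNReal.ofReal (∫ y : C → ℝ, Real.exp (s * q) * ∏ c, Real.exp (-s * y c ^ 2)) := by
        rw [ofReal_integral_eq_lintegral_ofReal (hint.const_mul _)]
        exact Filter.Eventually.of_forall fun y => by positivity
    _ = _ := by rw [integral_const_mul, hval]

theorem down {n : ℕ} {τ : List (Fin n) → ℂ} {R ε ε' T C : ℝ} {m N k : ℕ} (hN : 0 < N) (h : N ≤ k)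
    (hR : 0 < R) (hC : 1 ≤ C) (hRC : R ≤ C) (hε : 0 < ε)
    (hT : ∀ w : List (Fin n), w.length ≤ m → ‖τ w‖ ≤ T)
    (hc : (m : ℝ) * C ^ m * (Real.sqrt (2 * ((k - N : ℕ) : ℝ) * R ^ 2) * Real.sqrt k) / N +
      ((k : ℝ) / N - 1) * (T + ε) ≤ ε' - ε)
    (x : X n k) (hx : x ∈ Gam n τ R m ε k) :
    (fun i a b => x i (Fin.castLE h a) (Fin.castLE h b)) ∈ Gam n τ R m ε' N := by
  have hk : 0 < k := hN.trans_le h
  have hN' : (0 : ℝ) < N := by exact_mod_cast hN
  have hk' : (0 : ℝ) < k := by exact_mod_cast hk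
  have hkN : 1 ≤ (k : ℝ) / N := by rw [one_le_div hN']; exact_mod_cast h
  have hT0 : 0 ≤ T := (norm_nonneg _).trans (hT [] (Nat.zero_le _))
  obtain ⟨hx1, hx2⟩ := hx
  set A : Fin n → Matrix (Fin k) (Fin k) ℂ := fun j => Mx (x j) with hA
  set K : Fin n → Matrix (Fin N) (Fin N) ℂ := fun j => (P h)ᴴ * A j * P h with hK
  have hcore : (fun j => Mx ((fun i a b => x i (Fin.castLE h a) (Fin.castLE h b)) j)) = K := by
    funext j; exact Mx_core h (x j)
  have hKbd : ∀ j, bd R (K j) := fun j => corner_bd h (hx1 j)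
  set B : Fin n → Matrix (Fin k) (Fin k) ℂ := fun j => P h * K j * (P h)ᴴ with hB
  have hBbd : ∀ j, bd R (B j) := fun j => emb_bd h hR.le (hKbd j)
  set d := Real.sqrt (2 * ((k - N : ℕ) : ℝ) * R ^ 2) with hd
  have hd0 : 0 ≤ d := Real.sqrt_nonneg _
  have hD : ∀ j, F (A j - B j) ≤ d ^ 2 := by
    intro j
    rw [hd, Real.sq_sqrt (by positivity)]
    have := F_diff h (A j)
    rw [show A j - B j = A j - P h * ((P h)ᴴ * A j * P h) * (P h)ᴴ from rfl, this]
    exact outside_le h hR (hx1 j)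
  have hNC : (N : ℂ) ≠ 0 := by exact_mod_cast hN.ne'
  have hkC : (k : ℂ) ≠ 0 := by exact_mod_cast hk.ne'
  constructor
  · intro j
    have := congrFun hcore j
    rw [this]; exact hKbd j
  intro w hw
  rw [hcore]
  have hε' : ε ≤ ε' := by
    have e1 : 0 ≤ (m : ℝ) * C ^ m * (d * Real.sqrt k) / N := by positivity
    have e2 : 0 ≤ ((k : ℝ) / N - 1) * (T + ε) :=
      mul_nonneg (sub_nonneg.mpr hkN) (by linarith)
    linarith
  by_cases hw0 : w = []
  · subst hw0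
    have := hx2 [] (Nat.zero_le _)
    simp only [List.map_nil, List.prod_nil, trace_one, Fintype.card_fin] at this ⊢
    rw [inv_mul_cancel₀ hkC] at this
    rw [inv_mul_cancel₀ hNC]
    linarith
  · have t1 := telescope hR hC hRC hd0 A B hx1 hBbd hD w 1
    rw [Matrix.mul_one, Matrix.mul_one, F_one] at t1
    have t2 : trace ((w.map B).prod) = trace ((w.map K).prod) := by
      rw [hB, emb_prod h K w hw0, emb_trace]
    rw [t2] at t1
    have t3 : (w.length : ℝ) * C ^ w.length * (d * Real.sqrt k) ≤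
        m * C ^ m * (d * Real.sqrt k) := by
      have : C ^ w.length ≤ C ^ m := pow_le_pow_right₀ hC hw
      have : (w.length : ℝ) ≤ m := by exact_mod_cast hw
      gcongr
    have t4 := hx2 w hw
    have t5 := hT w hw
    set u := trace ((w.map A).prod) with hu
    set v := trace ((w.map K).prod) with hv
    have e1 : (N : ℂ)⁻¹ * v - τ w = (N : ℂ)⁻¹ * (v - u) +
        (((k : ℂ)⁻¹ * u - τ w) + (((k : ℝ) / N - 1 : ℝ) : ℂ) * ((k : ℂ)⁻¹ * u)) := by
      push_cast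
      field_simp
      ring
    have e2 : ‖(N : ℂ)⁻¹ * (v - u)‖ ≤ m * C ^ m * (d * Real.sqrt k) / N := by
      rw [norm_mul, norm_inv, Complex.norm_natCast, norm_sub_rev, inv_mul_eq_div]
      gcongr
      exact t1.trans t3
    have e3 : ‖(k : ℂ)⁻¹ * u‖ ≤ T + ε := by
      have : (k : ℂ)⁻¹ * u = ((k : ℂ)⁻¹ * u - τ w) + τ w := by ring
      rw [this]
      refine (norm_add_le _ _).trans ?_
      have : ‖(k : ℂ)⁻¹ * u - τ w‖ < ε := t4
      linarith
    have e4 : ‖(((k : ℝ) / N - 1 : ℝ) : ℂ) * ((k : ℂ)⁻¹ * u)‖ ≤ ((k : ℝ) / N - 1) * (T + ε) := by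
      rw [norm_mul, Complex.norm_real, Real.norm_eq_abs, abs_of_nonneg (sub_nonneg.mpr hkN)]
      exact mul_le_mul_of_nonneg_left e3 (sub_nonneg.mpr hkN)
    rw [e1]
    calc _ ≤ ‖(N : ℂ)⁻¹ * (v - u)‖ + (‖(k : ℂ)⁻¹ * u - τ w‖ +
          ‖(((k : ℝ) / N - 1 : ℝ) : ℂ) * ((k : ℂ)⁻¹ * u)‖) :=
            (norm_add_le _ _).trans (by gcongr; exact norm_add_le _ _)
      _ < m * C ^ m * (d * Real.sqrt k) / N + (ε + ((k : ℝ) / N - 1) * (T + ε)) := by
            have : ‖(k : ℂ)⁻¹ * u - τ w‖ < ε := t4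
            linarith
      _ ≤ ε' := by linarith

theorem vol_down {n : ℕ} {τ : List (Fin n) → ℂ} {R ε ε' T C : ℝ} {m N k : ℕ} (hN : 0 < N)
    (h : N ≤ k) (hR : 0 < R) (hC : 1 ≤ C) (hRC : R ≤ C) (hε : 0 < ε)
    (hT : ∀ w : List (Fin n), w.length ≤ m → ‖τ w‖ ≤ T)
    (hc : (m : ℝ) * C ^ m * (Real.sqrt (2 * ((k - N : ℕ) : ℝ) * R ^ 2) * Real.sqrt k) / N +
      ((k : ℝ) / N - 1) * (T + ε) ≤ ε' - ε) :
    volume (Gam n τ R m ε k) ≤ volume (Gam n τ R m ε' N) *
      ENNReal.ofReal (Real.exp (k * (n * (2 * ((k - N : ℕ) : ℝ) * R ^ 2))) *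
        Real.sqrt (Real.pi / k) ^ (n * (k ^ 2 - N ^ 2))) := by
  have hk : 0 < k := hN.trans_le h
  have hk' : (0 : ℝ) < k := by exact_mod_cast hk
  set S : Set ({c : I n k // ¬ core n N k c} → ℝ) :=
    {y | ∑ c, y c ^ 2 ≤ n * (2 * ((k - N : ℕ) : ℝ) * R ^ 2)} with hS
  have h1 : Gam n τ R m ε k ⊆ (E (n := n) h) ⁻¹' (Gam n τ R m ε' N ×ˢ S) := by
    intro x hx
    refine ⟨down hN h hR hC hRC hε hT hc x hx, ?_⟩
    show ∑ c, (E h x).2 c ^ 2 ≤ _
    simp only [E_snd]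
    have e1 : ∑ c : {c : I n k // ¬ core n N k c}, x c.1.1 c.1.2.1 c.1.2.2 ^ 2 =
        ∑ c : I n k, if core n N k c then 0 else x c.1 c.2.1 c.2.2 ^ 2 := by
      rw [← Finset.sum_subtype (Finset.univ.filter fun c : I n k => ¬ core n N k c)
        (p := fun c => ¬ core n N k c) (fun c => by simp)
        (fun c : I n k => x c.1 c.2.1 c.2.2 ^ 2), Finset.sum_filter]
      refine Finset.sum_congr rfl fun c _ => ?_
      split_ifs <;> simp_all
    rw [e1, Fintype.sum_prod_type]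
    have e2 : ∀ i : Fin n, ∑ p : Fin k × Fin k,
        (if core n N k (i, p) then (0 : ℝ) else x i p.1 p.2 ^ 2) ≤ 2 * ((k - N : ℕ) : ℝ) * R ^ 2 := by
      intro i
      rw [Fintype.sum_prod_type]
      have := sumsq (N := N) (x i)
      refine le_trans (le_of_eq ?_) (outside_le h hR (hx.1 i))
      rw [← this]
      rfl
    calc _ ≤ ∑ _i : Fin n, (2 * ((k - N : ℕ) : ℝ) * R ^ 2) := Finset.sum_le_sum fun i _ => e2 i
      _ = _ := by simp
  refine (measure_mono h1).trans ?_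
  rw [(E_mp h).measure_preimage_equiv, Measure.volume_eq_prod, Measure.prod_prod]
  gcongr
  have := vol_ball (C := {c : I n k // ¬ core n N k c}) hk' (n * (2 * ((k - N : ℕ) : ℝ) * R ^ 2))
  rwa [card_not_core h] at this

end Pool.FE80
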