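import Pool.Agent.Lib.FE80.Mat

set_option autoImplicit false

open Matrix
open scoped ComplexOrder

namespace Pool.FE80

/-- The Hermitian matrix with the given real coordinates (the one of the frozen statement). -/
noncomputable def Mx {k : ℕ} (x : Fin k → Fin k → ℝ) : Matrix (Fin k) (Fin k) ℂ := fun a b =>
  if a = b then ((x a a : ℝ) : ℂ)
  else if a < b then
    (((x a b : ℝ) : ℂ) + ((x b a : ℝ) : ℂ) * Complex.I) / ((Real.sqrt 2 : ℝ) : ℂ)
  else
    (((x b a : ℝ) : ℂ) - ((x a b : ℝ) : ℂ) * Complex.I) / ((Real.sqrt 2 : ℝ) : ℂ)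

theorem Mx_herm {k : ℕ} (x : Fin k → Fin k → ℝ) : (Mx x).IsHermitian := by
  ext a b
  rw [conjTranspose_apply]
  unfold Mx
  rcases lt_trichotomy a b with h | h | h
  · rw [if_neg h.ne', if_neg (not_lt.mpr h.le), if_neg h.ne, if_pos h]
    simp [Complex.conj_ofReal, sub_eq_add_neg]
  · subst h; simp
  · rw [if_neg h.ne, if_pos h, if_neg h.ne', if_neg (not_lt.mpr h.le)]
    simp [Complex.conj_ofReal, sub_eq_add_neg]

theorem Mx_norm {k : ℕ} (x : Fin k → Fin k → ℝ) (r : ℝ) (a b : Fin k) (h1 : |x a b| ≤ r)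
    (h2 : |x b a| ≤ r) : ‖Mx x a b‖ ≤ 2 * r := by
  have hr : 0 ≤ r := (abs_nonneg _).trans h1
  have hs : (1 : ℝ) ≤ Real.sqrt 2 := by
    rw [Real.one_le_sqrt]; norm_num
  have key : ∀ u v : ℝ, |u| ≤ r → |v| ≤ r → ∀ s : ℂ, ‖s‖ = 1 →
      ‖((u : ℂ) + (v : ℂ) * s) / ((Real.sqrt 2 : ℝ) : ℂ)‖ ≤ 2 * r := by
    intro u v hu hv s hs1
    rw [norm_div, Complex.norm_real, Real.norm_eq_abs, abs_of_nonneg (Real.sqrt_nonneg 2)]
    have h3 : ‖(u : ℂ) + (v : ℂ) * s‖ ≤ 2 * r := by
      refine (norm_add_le _ _).trans ?_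
      rw [norm_mul, hs1, Complex.norm_real, Complex.norm_real, Real.norm_eq_abs, Real.norm_eq_abs]
      linarith
    exact (div_le_self (norm_nonneg _) hs).trans h3
  unfold Mx
  split_ifs with e1 e2
  · subst e1
    rw [Complex.norm_real, Real.norm_eq_abs]; linarith
  · exact key _ _ h1 h2 _ (by simp)
  · have := key _ _ h2 h1 (-Complex.I) (by simp)
    rwa [mul_neg, ← sub_eq_add_neg] at this

/-- The inclusion matrix. -/
def P {k N : ℕ} (h : k ≤ N) : Matrix (Fin N) (Fin k) ℂ := fun a i =>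
  if a = Fin.castLE h i then 1 else 0

theorem P_cast {k N : ℕ} (h : k ≤ N) (i j : Fin k) :
    P h (Fin.castLE h i) j = if i = j then 1 else 0 := by
  unfold P
  simp [Fin.castLE_inj]

theorem P_out {k N : ℕ} (h : k ≤ N) (a : Fin N) (ha : ¬ a.1 < k) (i : Fin k) : P h a i = 0 := by
  unfold P
  rw [if_neg]
  rintro rfl
  exact ha i.2

theorem PP {k N : ℕ} (h : k ≤ N) : (P h)ᴴ * P h = 1 := by
  ext i j
  simp only [mul_apply, conjTranspose_apply, P, one_apply]
  rw [Finset.sum_eq_single (Fin.castLE h i)]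
  · simp [Fin.castLE_inj]
  · intro b _ hb
    simp [hb]
  · simp

theorem emb_apply {k N : ℕ} (h : k ≤ N) (A : Matrix (Fin k) (Fin k) ℂ) (i j : Fin k) :
    (P h * A * (P h)ᴴ) (Fin.castLE h i) (Fin.castLE h j) = A i j := by
  simp [mul_apply, conjTranspose_apply, P_cast]

theorem emb_out {k N : ℕ} (h : k ≤ N) (A : Matrix (Fin k) (Fin k) ℂ) (a b : Fin N)
    (hab : ¬ (a.1 < k ∧ b.1 < k)) : (P h * A * (P h)ᴴ) a b = 0 := by
  rw [mul_apply]
  refine Finset.sum_eq_zero fun j _ => ?_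
  by_cases ha : a.1 < k
  · have hb : ¬ b.1 < k := fun hb => hab ⟨ha, hb⟩
    rw [conjTranspose_apply, P_out h b hb]; simp
  · rw [mul_apply, Finset.sum_eq_zero, zero_mul]
    intro i _
    rw [P_out h a ha]; simp

theorem emb_prod {k N n : ℕ} (h : k ≤ N) (A : Fin n → Matrix (Fin k) (Fin k) ℂ)
    (w : List (Fin n)) (hw : w ≠ []) :
    (w.map fun j => P h * A j * (P h)ᴴ).prod = P h * (w.map A).prod * (P h)ᴴ := by
  induction w with
  | nil => exact absurd rfl hw
  | cons a w ih =>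
    by_cases hw' : w = []
    · subst hw'; simp
    · rw [List.map_cons, List.prod_cons, ih hw', List.map_cons, List.prod_cons]
      simp only [Matrix.mul_assoc]
      rw [← Matrix.mul_assoc (P h)ᴴ (P h), PP, Matrix.one_mul]

theorem emb_trace {k N : ℕ} (h : k ≤ N) (A : Matrix (Fin k) (Fin k) ℂ) :
    trace (P h * A * (P h)ᴴ) = trace A := by
  rw [Matrix.trace_mul_comm, ← Matrix.mul_assoc, PP, Matrix.one_mul]

theorem emb_bd {k N : ℕ} (h : k ≤ N) {R : ℝ} (hR : 0 ≤ R) {A : Matrix (Fin k) (Fin k) ℂ}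
    (hA : bd R A) : bd R (P h * A * (P h)ᴴ) := by
  have h0 : (1 - P h * (P h)ᴴ : Matrix (Fin N) (Fin N) ℂ).PosSemidef := by
    have e : (1 - P h * (P h)ᴴ : Matrix (Fin N) (Fin N) ℂ)ᴴ * (1 - P h * (P h)ᴴ) =
        1 - P h * (P h)ᴴ := by
      rw [conjTranspose_sub, conjTranspose_one, conjTranspose_mul, conjTranspose_conjTranspose,
        Matrix.sub_mul, Matrix.one_mul, Matrix.mul_sub, Matrix.mul_one]
      have : P h * (P h)ᴴ * (P h * (P h)ᴴ) = P h * (P h)ᴴ := by
        rw [Matrix.mul_assoc, ← Matrix.mul_assoc (P h)ᴴ, PP, Matrix.one_mul]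
      rw [this, sub_self, sub_zero]
    rw [← e]
    exact posSemidef_conjTranspose_mul_self _
  have h1 := h0.smul (a := (R : ℂ)) (by exact_mod_cast hR)
  constructor
  · have h2 := (hA.1.mul_mul_conjTranspose_same (P h)).add h1
    convert h2 using 1
    rw [Matrix.mul_sub, Matrix.sub_mul, Matrix.mul_smul, Matrix.smul_mul, Matrix.mul_one, smul_sub]
    abel
  · have h2 := (hA.2.mul_mul_conjTranspose_same (P h)).add h1
    convert h2 using 1
    rw [Matrix.mul_add, Matrix.add_mul, Matrix.mul_smul, Matrix.smul_mul, Matrix.mul_one, smul_sub]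
    abel

theorem bd.mono {k : ℕ} {R R' : ℝ} (hR : R ≤ R') {A : Matrix (Fin k) (Fin k) ℂ} (h : bd R A) :
    bd R' A := by
  have h1 := smulOne_psd (k := k) (sub_nonneg.mpr hR)
  constructor
  · convert h.1.add h1 using 1
    push_cast
    rw [sub_smul]; abel
  · convert h.2.add h1 using 1
    push_cast
    rw [sub_smul]; abel

theorem bd_add {N : ℕ} (hN : 0 < N) {R : ℝ} {B D : Matrix (Fin N) (Fin N) ℂ} (hB : bd R B)
    (hH : D.IsHermitian) (hD : ∀ a b, ‖D a b‖ ≤ 1 / N) : bd (R + 1) (B + D) := by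
  constructor
  · have := hB.1.add (small_psd hN hH.neg (fun a b => by simpa using hD a b))
    convert this using 1
    push_cast
    rw [add_smul, one_smul]; abel
  · have := hB.2.add (small_psd hN hH hD)
    convert this using 1
    push_cast
    rw [add_smul, one_smul]; abel

end Pool.FE80
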