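import Pool.Agent.Lib.FE80.Asym

set_option autoImplicit false

open Matrix MeasureTheory Filter Topology
open scoped ComplexOrder

namespace Pool.FE80

theorem core_lt {n : ℕ} (τ : List (Fin n) → ℂ) {R ε ε' b b' : ℝ} (m : ℕ) (hR : 0 < R)
    (hε : 0 < ε) (hεε : ε < ε') (hb : b' < b) :
    ∃ δ : ℝ, 0 < δ ∧ δ < 1 ∧ ∀ N k : ℕ, 0 < N → N ≤ k → (1 - δ) * k ≤ N →
      (b : EReal) < L n τ R m ε k → (b' : EReal) < L n τ R m ε' N := by
  obtain ⟨T, hT⟩ : ∃ T : ℝ, ∀ w : List (Fin n), w.length ≤ m → ‖τ w‖ ≤ T := by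
    obtain ⟨T, hT⟩ := ((List.finite_length_le (Fin n) m).image (fun w => ‖τ w‖)).bddAbove
    exact ⟨T, fun w hw => hT ⟨w, hw, rfl⟩⟩
  set C := max 1 R with hCdef
  have hC : 1 ≤ C := le_max_left _ _
  have hRC : R ≤ C := le_max_right _ _
  set psi : ℝ → ℝ := fun t => (m : ℝ) * C ^ m * Real.sqrt (2 * R ^ 2 * (1 - t)) / t +
    (1 / t - 1) * (T + ε) with hpsi
  have c1 : ContinuousAt psi 1 := by
    rw [hpsi]
    fun_prop (disch := norm_num)
  have c2 : ContinuousAt (fun t => t ^ 2 * b' + phi n R t) 1 := by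
    unfold phi
    fun_prop (disch := norm_num)
  have v1 : psi 1 < ε' - ε := by
    rw [hpsi]; simp; exact hεε
  have v2 : (fun t => t ^ 2 * b' + phi n R t) 1 < b := by
    simp [phi, hb]
  have ev := (c1.eventually_lt continuousAt_const v1).and (c2.eventually_lt continuousAt_const v2)
  rw [Metric.eventually_nhds_iff] at ev
  obtain ⟨d, hd, hd'⟩ := ev
  refine ⟨min (d / 2) (1 / 2), by positivity, by
    have := min_le_right (d / 2) (1 / 2 : ℝ); linarith, ?_⟩
  intro N k hN hNk hδ hL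
  have hk : 0 < k := hN.trans_le hNk
  have hN' : (0 : ℝ) < N := by exact_mod_cast hN
  have hk' : (0 : ℝ) < k := by exact_mod_cast hk
  have hNk' : (N : ℝ) ≤ k := by exact_mod_cast hNk
  set t : ℝ := (N : ℝ) / k with ht
  have ht0 : 0 < t := by positivity
  have ht1 : t ≤ 1 := by rw [ht, div_le_one hk']; exact hNk'
  have ht2 : 1 - min (d / 2) (1 / 2) ≤ t := by rw [ht, le_div_iff₀ hk']; exact hδ
  have htd : dist t 1 < d := by
    rw [Real.dist_eq, abs_sub_lt_iff]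
    have := min_le_left (d / 2) (1 / 2 : ℝ)
    constructor <;> linarith
  obtain ⟨g1, g2⟩ := hd' htd
  have hc : (m : ℝ) * C ^ m * (Real.sqrt (2 * ((k - N : ℕ) : ℝ) * R ^ 2) * Real.sqrt k) / N +
      ((k : ℝ) / N - 1) * (T + ε) ≤ ε' - ε := by
    refine le_trans (le_of_eq ?_) g1.le
    rw [hpsi]
    simp only
    have e1 : Real.sqrt (2 * ((k - N : ℕ) : ℝ) * R ^ 2) * Real.sqrt k =
        Real.sqrt (2 * R ^ 2 * (1 - t)) * k := by
      rw [← Real.sqrt_mul (by positivity)]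
      have : (2 * ((k - N : ℕ) : ℝ) * R ^ 2) * k = (2 * R ^ 2 * (1 - t)) * (k : ℝ) ^ 2 := by
        rw [ht]; push_cast [Nat.cast_sub hNk]; field_simp
      rw [this, Real.sqrt_mul (by
        have : 0 ≤ 1 - t := by linarith
        positivity), Real.sqrt_sq hk'.le]
    rw [e1, ht]
    field_simp
  have h1 := L_le hN hNk hR hC hRC hε hT hc
  by_contra hcon
  rw [not_lt] at hcon
  have h5 : (0 : EReal) ≤ ((((N : ℝ) / k) ^ 2 : ℝ) : EReal) := by
    have : (0 : ℝ) ≤ ((N : ℝ) / k) ^ 2 := by positivity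
    exact_mod_cast this
  have h2 := mul_le_mul_of_nonneg_left hcon h5
  have h3 := hL.trans_le (h1.trans (add_le_add_left h2 _))
  rw [← EReal.coe_mul, ← EReal.coe_add, EReal.coe_lt_coe_iff] at h3
  linarith

variable {n : ℕ} (τ : List (Fin n) → ℂ) {R : ℝ} (m : ℕ) {s : ℕ → ℕ}

theorem ratio_ev (hs : StrictMono s)
    (hr : Tendsto (fun j => (s (j + 1) : ℝ) / s j) atTop (𝓝 1)) {δ : ℝ} (h0 : 0 < δ)
    (h1 : δ < 1) : ∃ J, ∀ j, J ≤ j → 0 < s j ∧ (1 - δ) * s (j + 1) ≤ s j := by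
  have hlt : (1 : ℝ) < 1 / (1 - δ) := by
    rw [lt_div_iff₀ (by linarith)]; linarith
  have ev := hr.eventually_lt_const hlt
  rw [eventually_atTop] at ev
  obtain ⟨J, hJ⟩ := ev
  refine ⟨max J 1, fun j hj => ?_⟩
  have hj1 : 1 ≤ j := (le_max_right _ _).trans hj
  have hsj : 0 < s j := lt_of_lt_of_le hj1 (hs.le_apply)
  refine ⟨hsj, ?_⟩
  have hsj' : (0 : ℝ) < s j := by exact_mod_cast hsj
  have := hJ j ((le_max_left _ _).trans hj)
  rw [div_lt_div_iff₀ hsj' (by linarith)] at this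
  linarith

theorem limsup_le (hR : 0 < R) {ε ε' : ℝ} (hε : 0 < ε) (hεε : ε < ε') (hs : StrictMono s)
    (hr : Tendsto (fun j => (s (j + 1) : ℝ) / s j) atTop (𝓝 1)) :
    limsup (fun k => L n τ R m ε k) atTop ≤ limsup (fun j => L n τ R m ε' (s j)) atTop := by
  rw [← EReal.ge_of_forall_gt_iff_ge]
  intro z hz
  obtain ⟨b, hb1, hb2⟩ := EReal.lt_iff_exists_real_btwn.mp hz
  have hzb : z < b := by exact_mod_cast hb1
  have hf := frequently_lt_of_lt_limsup (by isBoundedDefault) hb2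
  obtain ⟨δ, h0, h1, hδ⟩ := core_lt τ m hR hε hεε hzb
  obtain ⟨J, hJ⟩ := ratio_ev hs hr h0 h1
  refine le_limsup_of_frequently_le ?_ (by isBoundedDefault)
  rw [frequently_atTop]
  intro a
  rw [frequently_atTop] at hf
  obtain ⟨k, hk, hLk⟩ := hf (s (max a J))
  have hex : ∃ i, k < s i := ⟨k + 1, lt_of_lt_of_le (Nat.lt_succ_self k) hs.le_apply⟩
  classical
  set i := Nat.find hex with hi
  have hi1 : k < s i := Nat.find_spec hex
  have hi2 : max a J < i := by
    by_contra hcon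
    rw [not_lt] at hcon
    exact absurd (hs.monotone hcon) (not_le.mpr (hk.trans_lt hi1))
  obtain ⟨j, hj⟩ : ∃ j, i = j + 1 := ⟨i - 1, by omega⟩
  have hj2 : s j ≤ k := by
    have := Nat.find_min hex (m := j) (by omega)
    exact not_lt.mp this
  have haj : max a J ≤ j := by omega
  refine ⟨j, (le_max_left _ _).trans haj, ?_⟩
  obtain ⟨p1, p2⟩ := hJ j ((le_max_right _ _).trans haj)
  refine (hδ (s j) k p1 hj2 ?_ hLk).le
  have : (k : ℝ) ≤ s (j + 1) := by
    rw [← hj]; exact_mod_cast hi1.le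
  refine le_trans ?_ p2
  exact mul_le_mul_of_nonneg_left this (by linarith)

theorem liminf_le (hR : 0 < R) {ε ε' : ℝ} (hε : 0 < ε) (hεε : ε < ε') (hs : StrictMono s)
    (hr : Tendsto (fun j => (s (j + 1) : ℝ) / s j) atTop (𝓝 1)) :
    liminf (fun j => L n τ R m ε (s j)) atTop ≤ liminf (fun k => L n τ R m ε' k) atTop := by
  rw [← EReal.ge_of_forall_gt_iff_ge]
  intro z hz
  obtain ⟨b, hb1, hb2⟩ := EReal.lt_iff_exists_real_btwn.mp hz
  have hzb : z < b := by exact_mod_cast hb1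
  have hf := eventually_lt_of_lt_liminf hb2 (by isBoundedDefault)
  rw [eventually_atTop] at hf
  obtain ⟨J1, hJ1⟩ := hf
  obtain ⟨δ, h0, h1, hδ⟩ := core_lt τ m hR hε hεε hzb
  obtain ⟨J, hJ⟩ := ratio_ev hs hr h0 h1
  refine le_liminf_of_le (by isBoundedDefault) ?_
  rw [eventually_atTop]
  refine ⟨s (max J1 J) + 1, fun N hN => ?_⟩
  have hex : ∃ i, N ≤ s i := ⟨N, hs.le_apply⟩
  classical
  set i := Nat.find hex with hi
  have hi1 : N ≤ s i := Nat.find_spec hex
  have hi2 : max J1 J < i := by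
    by_contra hcon
    rw [not_lt] at hcon
    have := hs.monotone hcon
    omega
  obtain ⟨j, hj⟩ : ∃ j, i = j + 1 := ⟨i - 1, by omega⟩
  have hj2 : s j < N := by
    have := Nat.find_min hex (m := j) (by omega)
    exact not_le.mp this
  have haj : max J1 J ≤ j := by omega
  obtain ⟨p1, p2⟩ := hJ j ((le_max_right _ _).trans haj)
  have hb3 := hJ1 (j + 1) (((le_max_left _ _).trans haj).trans (Nat.le_succ _))
  refine (hδ N (s (j + 1)) (by omega) (by rw [← hj]; exact hi1) ?_ hb3).le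
  refine p2.trans ?_
  exact_mod_cast hj2.le

end Pool.FE80
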