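import Pool.Agent.Lib.FE80.Vol

set_option autoImplicit false

open Matrix
open scoped ComplexOrder

namespace Pool.FE80

/-- The bound `-R ≤ A ≤ R`. -/
def bd {k : ℕ} (R : ℝ) (A : Matrix (Fin k) (Fin k) ℂ) : Prop :=
  ((R : ℂ) • (1 : Matrix (Fin k) (Fin k) ℂ) - A).PosSemidef ∧
  ((R : ℂ) • (1 : Matrix (Fin k) (Fin k) ℂ) + A).PosSemidef

theorem smulOne_herm {k : ℕ} (R : ℝ) : ((R : ℂ) • (1 : Matrix (Fin k) (Fin k) ℂ)).IsHermitian := by
  rw [IsHermitian, conjTranspose_smul, conjTranspose_one]; simp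

theorem bd.herm {k : ℕ} {R : ℝ} {A : Matrix (Fin k) (Fin k) ℂ} (h : bd R A) : A.IsHermitian := by
  have h1 := (smulOne_herm (k := k) R).sub h.1.isHermitian
  rwa [sub_sub_cancel] at h1

theorem smulOne_psd {k : ℕ} {R : ℝ} (hR : 0 ≤ R) :
    ((R : ℂ) • (1 : Matrix (Fin k) (Fin k) ℂ)).PosSemidef :=
  PosSemidef.one.smul (by exact_mod_cast hR)

/-- Square of the Hilbert-Schmidt norm. -/
noncomputable def F {k l : ℕ} (M : Matrix (Fin k) (Fin l) ℂ) : ℝ := ∑ a, ∑ b, ‖M a b‖ ^ 2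

theorem F_nonneg {k l : ℕ} (M : Matrix (Fin k) (Fin l) ℂ) : 0 ≤ F M :=
  Finset.sum_nonneg fun _ _ => Finset.sum_nonneg fun _ _ => by positivity

theorem F_trace {k l : ℕ} (M : Matrix (Fin k) (Fin l) ℂ) : ((F M : ℝ) : ℂ) = trace (Mᴴ * M) := by
  unfold F
  rw [trace]
  simp only [diag_apply, mul_apply, conjTranspose_apply]
  rw [Finset.sum_comm]
  push_cast
  refine Finset.sum_congr rfl fun b _ => Finset.sum_congr rfl fun a _ => ?_
  rw [RCLike.star_def, RCLike.conj_mul]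
  norm_cast

theorem F_conj {k l : ℕ} (M : Matrix (Fin k) (Fin l) ℂ) : F Mᴴ = F M := by
  unfold F
  rw [Finset.sum_comm]
  simp [conjTranspose_apply]

theorem F_one (k : ℕ) : F (1 : Matrix (Fin k) (Fin k) ℂ) = k := by
  unfold F
  have : ∀ a b : Fin k, ‖(1 : Matrix (Fin k) (Fin k) ℂ) a b‖ ^ 2 = if a = b then 1 else 0 := by
    intro a b
    rw [one_apply]; split_ifs <;> simp
  simp [this]

theorem sq_psd {k : ℕ} {R : ℝ} (hR : 0 < R) {X : Matrix (Fin k) (Fin k) ℂ} (h : bd R X) :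
    (((R ^ 2 : ℝ) : ℂ) • (1 : Matrix (Fin k) (Fin k) ℂ) - X * X).PosSemidef := by
  have h1 := h.2.mul_mul_conjTranspose_same ((R : ℂ) • (1 : Matrix (Fin k) (Fin k) ℂ) - X)
  have h2 := h.1.mul_mul_conjTranspose_same ((R : ℂ) • (1 : Matrix (Fin k) (Fin k) ℂ) + X)
  rw [h.1.isHermitian] at h1
  rw [h.2.isHermitian] at h2
  have h3 := (h1.add h2).smul (a := (((2 * R)⁻¹ : ℝ) : ℂ)) (by
    have : (0 : ℝ) ≤ (2 * R)⁻¹ := by positivity
    exact_mod_cast this)
  convert h3 using 1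
  have hR' : (R : ℂ) ≠ 0 := by exact_mod_cast hR.ne'
  simp only [sub_mul, mul_sub, add_mul, mul_add, smul_mul_assoc, mul_smul_comm, one_mul, mul_one,
    smul_sub, smul_add, smul_smul]
  push_cast
  match_scalars <;> field_simp <;> ring

theorem F_mul {k l : ℕ} {R : ℝ} (hR : 0 < R) {X : Matrix (Fin k) (Fin k) ℂ} (h : bd R X)
    (M : Matrix (Fin k) (Fin l) ℂ) : F (X * M) ≤ R ^ 2 * F M := by
  have h1 := (sq_psd hR h).conjTranspose_mul_mul_same M
  have h2 := h1.trace_nonneg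
  have h3 : trace (Mᴴ * (((R ^ 2 : ℝ) : ℂ) • (1 : Matrix (Fin k) (Fin k) ℂ) - X * X) * M) =
      (((R ^ 2 * F M - F (X * M) : ℝ)) : ℂ) := by
    push_cast
    rw [F_trace, F_trace, conjTranspose_mul, h.herm.eq]
    rw [Matrix.mul_sub, Matrix.sub_mul, trace_sub, Matrix.mul_smul, Matrix.smul_mul, Matrix.mul_one,
      trace_smul, smul_eq_mul]
    simp only [Matrix.mul_assoc]
  rw [h3] at h2
  have h4 : (0 : ℝ) ≤ R ^ 2 * F M - F (X * M) := by exact_mod_cast h2
  linarith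

theorem F_mul_right {k : ℕ} {R : ℝ} (hR : 0 < R) {X : Matrix (Fin k) (Fin k) ℂ} (h : bd R X)
    (M : Matrix (Fin k) (Fin k) ℂ) : F (M * X) ≤ R ^ 2 * F M := by
  rw [← F_conj (M * X), conjTranspose_mul, h.herm.eq, ← F_conj M]
  exact F_mul hR h _

theorem tr_le {N : ℕ} (hN : 0 < N) {D : Matrix (Fin N) (Fin N) ℂ}
    (hD : ∀ a b, ‖D a b‖ ≤ 1 / N) (M : Matrix (Fin N) (Fin N) ℂ) :
    ‖trace (D * M)‖ ≤ Real.sqrt (F M) := by
  have hN' : (0 : ℝ) < N := by exact_mod_cast hN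
  have h1 : ‖trace (D * M)‖ ≤ ∑ a : Fin N, ∑ b : Fin N, (1 / N : ℝ) * ‖M b a‖ := by
    rw [trace]
    simp only [diag_apply, mul_apply]
    refine (norm_sum_le _ _).trans (Finset.sum_le_sum fun a _ => ?_)
    refine (norm_sum_le _ _).trans (Finset.sum_le_sum fun b _ => ?_)
    rw [norm_mul]
    exact mul_le_mul_of_nonneg_right (hD a b) (norm_nonneg _)
  have h2 : ∑ a : Fin N, ∑ b : Fin N, (1 / N : ℝ) * ‖M b a‖ =
      (1 / N : ℝ) * ∑ p : Fin N × Fin N, ‖M p.1 p.2‖ := by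
    rw [Finset.sum_comm, Fintype.sum_prod_type, Finset.mul_sum]
    refine Finset.sum_congr rfl fun a _ => ?_
    rw [Finset.mul_sum]
  have h3 : (∑ p : Fin N × Fin N, ‖M p.1 p.2‖) ^ 2 ≤ (N : ℝ) ^ 2 * F M := by
    have := sq_sum_le_card_mul_sum_sq (s := (Finset.univ : Finset (Fin N × Fin N)))
      (f := fun p => ‖M p.1 p.2‖)
    refine this.trans (le_of_eq ?_)
    unfold F
    rw [Fintype.sum_prod_type]
    simp [pow_two]
  refine h1.trans ?_
  rw [h2]
  refine Real.le_sqrt_of_sq_le ?_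
  rw [mul_pow]
  calc (1 / (N : ℝ)) ^ 2 * (∑ p : Fin N × Fin N, ‖M p.1 p.2‖) ^ 2
      ≤ (1 / (N : ℝ)) ^ 2 * ((N : ℝ) ^ 2 * F M) := by gcongr
    _ = F M := by field_simp

theorem small_psd {N : ℕ} (hN : 0 < N) {D : Matrix (Fin N) (Fin N) ℂ} (hH : D.IsHermitian)
    (hD : ∀ a b, ‖D a b‖ ≤ 1 / N) : ((1 : Matrix (Fin N) (Fin N) ℂ) + D).PosSemidef := by
  have hN' : (0 : ℝ) < N := by exact_mod_cast hN
  refine PosSemidef.of_dotProduct_mulVec_nonneg (isHermitian_one.add hH) fun x => ?_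
  rw [add_mulVec, one_mulVec, dotProduct_add]
  have h1 : star x ⬝ᵥ x = ((∑ a, ‖x a‖ ^ 2 : ℝ) : ℂ) := by
    rw [dotProduct]
    push_cast
    refine Finset.sum_congr rfl fun a _ => ?_
    rw [Pi.star_apply, RCLike.star_def, RCLike.conj_mul]
    norm_cast
  have hq : star x ⬝ᵥ (D *ᵥ x) = ∑ a, ∑ b, star (x a) * (D a b * x b) := by
    simp [dotProduct, mulVec, Finset.mul_sum]
  have h2 : star (star x ⬝ᵥ (D *ᵥ x)) = star x ⬝ᵥ (D *ᵥ x) := by
    rw [hq, star_sum, Finset.sum_comm]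
    simp only [star_sum]
    rw [Finset.sum_comm]
    rw [Finset.sum_comm]
    refine Finset.sum_congr rfl fun a _ => Finset.sum_congr rfl fun b _ => ?_
    rw [star_mul, star_mul, star_star, hH.apply b a]
    ring
  have h3 : ‖star x ⬝ᵥ (D *ᵥ x)‖ ≤ ∑ a, ‖x a‖ ^ 2 := by
    rw [hq]
    have e1 : ‖∑ a, ∑ b, star (x a) * (D a b * x b)‖ ≤ ∑ a, ∑ b, ‖x a‖ * (1 / N * ‖x b‖) := by
      refine (norm_sum_le _ _).trans (Finset.sum_le_sum fun a _ => ?_)
      refine (norm_sum_le _ _).trans (Finset.sum_le_sum fun b _ => ?_)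
      rw [norm_mul, norm_mul, norm_star]
      gcongr
      exact hD a b
    have e2 : ∑ a, ∑ b, ‖x a‖ * (1 / N * ‖x b‖) = (1 / N : ℝ) * (∑ a, ‖x a‖) ^ 2 := by
      rw [pow_two, Finset.sum_mul_sum, Finset.mul_sum]
      refine Finset.sum_congr rfl fun a _ => ?_
      rw [Finset.mul_sum]
      refine Finset.sum_congr rfl fun b _ => ?_
      ring
    have e3 : (∑ a, ‖x a‖) ^ 2 ≤ (N : ℝ) * ∑ a, ‖x a‖ ^ 2 := by
      have := sq_sum_le_card_mul_sum_sq (s := (Finset.univ : Finset (Fin N))) (f := fun a => ‖x a‖)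
      simpa using this
    refine e1.trans ?_
    rw [e2]
    calc (1 / (N : ℝ)) * (∑ a, ‖x a‖) ^ 2 ≤ (1 / (N : ℝ)) * ((N : ℝ) * ∑ a, ‖x a‖ ^ 2) := by gcongr
      _ = _ := by field_simp
  rw [h1]
  set q := star x ⬝ᵥ (D *ᵥ x) with hqdef
  rw [Complex.nonneg_iff]
  have him : q.im = 0 := by
    have := congrArg Complex.im h2
    simp only [RCLike.star_def, Complex.conj_im] at this
    linarith
  have hre : -‖q‖ ≤ q.re := (abs_le.mp (Complex.abs_re_le_norm q)).1
  constructor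
  · simp only [Complex.add_re, Complex.ofReal_re]
    linarith
  · rw [Complex.add_im, Complex.ofReal_im, him, add_zero]

theorem telescoping {N n : ℕ} (hN : 0 < N) {R : ℝ} (hR : 1 ≤ R)
    (A B : Fin n → Matrix (Fin N) (Fin N) ℂ) (hA : ∀ j, bd R (A j)) (hB : ∀ j, bd R (B j))
    (hD : ∀ j a b, ‖(A j - B j) a b‖ ≤ 1 / N) (w : List (Fin n)) :
    ∀ M : Matrix (Fin N) (Fin N) ℂ,
      ‖trace ((w.map A).prod * M) - trace ((w.map B).prod * M)‖ ≤
        w.length * R ^ w.length * Real.sqrt (F M) := by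
  have hR0 : 0 < R := by linarith
  have hprod : ∀ (w : List (Fin n)) (M : Matrix (Fin N) (Fin N) ℂ),
      Real.sqrt (F ((w.map A).prod * M)) ≤ R ^ w.length * Real.sqrt (F M) := by
    intro w
    induction w with
    | nil => intro M; simp
    | cons a w ih =>
      intro M
      rw [List.map_cons, List.prod_cons, Matrix.mul_assoc, List.length_cons, pow_succ']
      have h1 := F_mul hR0 (hA a) ((w.map A).prod * M)
      have h2 : Real.sqrt (F (A a * ((w.map A).prod * M))) ≤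
          R * Real.sqrt (F ((w.map A).prod * M)) := by
        rw [← Real.sqrt_sq hR0.le, ← Real.sqrt_mul (by positivity)]
        exact Real.sqrt_le_sqrt h1
      calc _ ≤ R * Real.sqrt (F ((w.map A).prod * M)) := h2
        _ ≤ R * (R ^ w.length * Real.sqrt (F M)) := by gcongr; exact ih M
        _ = _ := by ring
  induction w with
  | nil => intro M; simp
  | cons a w ih =>
    intro M
    rw [List.map_cons, List.prod_cons, List.map_cons, List.prod_cons]
    have e1 : trace (A a * (w.map A).prod * M) - trace (B a * (w.map B).prod * M) =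
        trace ((A a - B a) * ((w.map A).prod * M)) +
        (trace ((w.map A).prod * (M * B a)) - trace ((w.map B).prod * (M * B a))) := by
      rw [Matrix.sub_mul, trace_sub]
      have c1 : trace ((w.map A).prod * (M * B a)) = trace (B a * ((w.map A).prod * M)) := by
        rw [← Matrix.mul_assoc, trace_mul_comm]
      have c2 : trace ((w.map B).prod * (M * B a)) = trace (B a * ((w.map B).prod * M)) := by
        rw [← Matrix.mul_assoc, trace_mul_comm]
      rw [c1, c2, Matrix.mul_assoc, Matrix.mul_assoc]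
      ring
    rw [e1]
    refine (norm_add_le _ _).trans ?_
    have f1 : ‖trace ((A a - B a) * ((w.map A).prod * M))‖ ≤ R ^ w.length * Real.sqrt (F M) :=
      (tr_le hN (hD a) _).trans (hprod w M)
    have f2 := ih (M * B a)
    have f3 : Real.sqrt (F (M * B a)) ≤ R * Real.sqrt (F M) := by
      rw [← Real.sqrt_sq hR0.le, ← Real.sqrt_mul (by positivity)]
      exact Real.sqrt_le_sqrt (F_mul_right hR0 (hB a) M)
    have f4 : R ^ w.length * Real.sqrt (F M) ≤ R ^ (w.length + 1) * Real.sqrt (F M) := by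
      have : R ^ w.length ≤ R ^ (w.length + 1) := pow_le_pow_right₀ hR (Nat.le_succ _)
      gcongr
    rw [List.length_cons]
    push_cast
    calc _ ≤ R ^ (w.length + 1) * Real.sqrt (F M) +
          w.length * R ^ w.length * (R * Real.sqrt (F M)) := by
            refine add_le_add (f1.trans f4) (f2.trans ?_)
            gcongr
      _ = _ := by ring

end Pool.FE80
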