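import Mathlib

set_option autoImplicit false

open MeasureTheory Set

namespace Pool.FE80

abbrev X (n k : ℕ) := Fin n → Fin k → Fin k → ℝ
abbrev I (n k : ℕ) := Fin n × Fin k × Fin k

def U (n k : ℕ) : X n k ≃ᵐ (I n k → ℝ) where
  toFun x p := x p.1 p.2.1 p.2.2
  invFun y i j l := y (i, j, l)
  left_inv _ := rfl
  right_inv _ := rfl
  measurable_toFun := by
    refine measurable_pi_lambda _ fun p => ?_
    exact (measurable_pi_apply p.2.2).comp ((measurable_pi_apply p.2.1).comp (measurable_pi_apply p.1))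
  measurable_invFun := by
    refine measurable_pi_lambda _ fun i => measurable_pi_lambda _ fun j =>
      measurable_pi_lambda _ fun l => ?_
    exact measurable_pi_apply (i, j, l)

theorem U_mp (n k : ℕ) : MeasurePreserving (U n k) volume volume := by
  refine ⟨(U n k).measurable, ?_⟩
  symm
  refine Measure.pi_eq (μ := fun _ => volume) fun s hs => ?_
  rw [(U n k).map_apply]
  have : (U n k) ⁻¹' (univ.pi s) =
      univ.pi (fun i => univ.pi (fun j => univ.pi fun l => s (i, j, l))) := by
    ext x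
    simp only [mem_preimage, mem_pi, mem_univ, forall_const]
    constructor
    · intro h i j l; exact h (i, j, l)
    · rintro h ⟨i, j, l⟩; exact h i j l
  rw [this, volume_pi_pi]
  simp_rw [volume_pi_pi]
  rw [Fintype.prod_prod_type]
  refine Finset.prod_congr rfl fun i _ => ?_
  rw [Fintype.prod_prod_type]

def core (n k N : ℕ) (c : I n N) : Prop := c.2.1.1 < k ∧ c.2.2.1 < k

instance (n k N : ℕ) : DecidablePred (core n k N) := fun _ => inferInstanceAs (Decidable (_ ∧ _))

def gE {n k N : ℕ} (h : k ≤ N) : {c : I n N // core n k N c} ≃ I n k where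
  toFun c := (c.1.1, ⟨c.1.2.1, c.2.1⟩, ⟨c.1.2.2, c.2.2⟩)
  invFun c := ⟨(c.1, Fin.castLE h c.2.1, Fin.castLE h c.2.2), c.2.1.2, c.2.2.2⟩
  left_inv c := by rfl
  right_inv c := by rfl

/-- The splitting of a bordered array. -/
def E {n k N : ℕ} (h : k ≤ N) : X n N ≃ᵐ X n k × ({c : I n N // ¬ core n k N c} → ℝ) :=
  (U n N).trans ((MeasurableEquiv.piEquivPiSubtypeProd (fun _ => ℝ) (core n k N)).trans
    (MeasurableEquiv.prodCongr
      ((MeasurableEquiv.arrowCongr' (gE h) (MeasurableEquiv.refl ℝ)).trans (U n k).symm)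
      (MeasurableEquiv.refl _)))

theorem E_mp {n k N : ℕ} (h : k ≤ N) : MeasurePreserving (E (n := n) h) volume volume := by
  have h1 := U_mp n N
  have h2 := volume_preserving_piEquivPiSubtypeProd (fun _ : I n N => ℝ) (core n k N)
  have h3 : MeasurePreserving (MeasurableEquiv.arrowCongr' (gE (n := n) h) (MeasurableEquiv.refl ℝ))
      volume volume :=
    volume_preserving_arrowCongr' (gE h) (MeasurableEquiv.refl ℝ) (MeasurePreserving.id _)
  have h4 := (U_mp n k).symm
  have h5 := (h4.comp h3).prod (MeasurePreserving.id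
    (volume : Measure ({c : I n N // ¬ core n k N c} → ℝ)))
  exact h5.comp (h2.comp h1)

theorem E_fst {n k N : ℕ} (h : k ≤ N) (x : X n N) (i : Fin n) (a b : Fin k) :
    (E h x).1 i a b = x i (Fin.castLE h a) (Fin.castLE h b) := rfl

theorem E_snd {n k N : ℕ} (h : k ≤ N) (x : X n N) (c : {c : I n N // ¬ core n k N c}) :
    (E h x).2 c = x c.1.1 c.1.2.1 c.1.2.2 := rfl

theorem card_not_core {n k N : ℕ} (h : k ≤ N) :
    Fintype.card {c : I n N // ¬ core n k N c} = n * (N ^ 2 - k ^ 2) := by
  have h1 : Fintype.card {c : I n N // core n k N c} = n * k ^ 2 := by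
    rw [Fintype.card_congr (gE h)]; simp [I, pow_two]
  rw [Fintype.card_subtype_compl, h1]
  simp [I, pow_two, Nat.mul_sub]

theorem vol_ge {n k N : ℕ} (h : k ≤ N) (G : Set (X n k)) (G' : Set (X n N)) (r : ℝ)
    (hr : 0 ≤ r)
    (hG : ∀ x : X n N, (fun i a b => x i (Fin.castLE h a) (Fin.castLE h b)) ∈ G →
      (∀ i a b, ¬ (a.1 < k ∧ b.1 < k) → |x i a b| ≤ r) → x ∈ G') :
    volume G * ENNReal.ofReal (2 * r) ^ (n * (N ^ 2 - k ^ 2)) ≤ volume G' := by
  have hs : volume ((E (n := n) h) ⁻¹' (G ×ˢ (univ.pi fun _ => Icc (-r) r))) =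
      volume G * ENNReal.ofReal (2 * r) ^ (n * (N ^ 2 - k ^ 2)) := by
    rw [(E_mp h).measure_preimage_equiv, Measure.volume_eq_prod, Measure.prod_prod, volume_pi_pi]
    simp only [Real.volume_Icc, Finset.prod_const, Finset.card_univ, card_not_core h]
    congr 3
    ring
  rw [← hs]
  refine measure_mono fun x hx => ?_
  simp only [mem_preimage, mem_prod, mem_pi, mem_univ, forall_const, mem_Icc] at hx
  refine hG x hx.1 fun i a b hab => ?_
  have := hx.2 ⟨(i, a, b), hab⟩
  rw [E_snd] at this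
  exact abs_le.mpr this

end Pool.FE80
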